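import Pool.Agent.H238.PH.Spec

set_option autoImplicit false

/-! Project PH, task A: homogeneity of the derivative. -/

namespace Pool.Agent.H230.PH.A

open Pool.Agent.H238.PH MeasureTheory Set Filter Topology

theorem t_A : S_A := by
  intro n β h hc hom
  have hdiff : Differentiable ℝ h := hc.differentiable one_ne_zero
  have hcont : Continuous (fderiv ℝ h) := hc.continuous_fderiv one_ne_zero
  have h1 : ∀ (t : ℝ) (x : RE 2), 0 < t → fderiv ℝ h (t • x) = t ^ (β - 1) • fderiv ℝ h x := by
    intro t x ht
    have e1 : HasFDerivAt (fun y : RE 2 => h (t • y))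
        ((fderiv ℝ h (t • x)).comp (t • ContinuousLinearMap.id ℝ (RE 2))) x := by
      have hs : HasFDerivAt (fun y : RE 2 => t • y) (t • ContinuousLinearMap.id ℝ (RE 2)) x :=
        (hasFDerivAt_id x).const_smul t
      exact (hdiff (t • x)).hasFDerivAt.comp x hs
    have e2 : HasFDerivAt (fun y : RE 2 => h (t • y)) (t ^ β • fderiv ℝ h x) x := by
      have hfun : (fun y : RE 2 => h (t • y)) = fun y => t ^ β • h y := by
        funext y; exact hom t y ht
      rw [hfun]
      exact (hdiff x).hasFDerivAt.const_smul (t ^ β)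
    have e3 := e1.unique e2
    have e4 : (fderiv ℝ h (t • x)).comp (t • ContinuousLinearMap.id ℝ (RE 2)) =
        t • fderiv ℝ h (t • x) := by
      ext v
      simp
    rw [e4] at e3
    have e5 : fderiv ℝ h (t • x) = t⁻¹ • (t • fderiv ℝ h (t • x)) := by
      rw [smul_smul, inv_mul_cancel₀ ht.ne', one_smul]
    rw [e5, e3, smul_smul]
    congr 1
    rw [Real.rpow_sub_one ht.ne']
    field_simp
  have htend : ∀ x : RE 2, Tendsto (fun t : ℝ => fderiv ℝ h (t • x)) (𝓝[>] 0)
      (𝓝 (fderiv ℝ h 0)) := by
    intro x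
    have hcx : Continuous fun t : ℝ => fderiv ℝ h (t • x) :=
      hcont.comp (continuous_id.smul continuous_const)
    have := hcx.tendsto 0
    rw [zero_smul] at this
    exact this.mono_left nhdsWithin_le_nhds
  refine ⟨h1, ?_, ?_⟩
  · intro hβ x
    rcases hβ.lt_or_eq with hlt | heq
    · have hz : ∀ y : RE 2, fderiv ℝ h y = 0 := by
        intro y
        have hpow : Tendsto (fun t : ℝ => t ^ (1 - β)) (𝓝[>] 0) (𝓝 0) := by
          have hc' : Continuous fun t : ℝ => t ^ (1 - β) :=
            continuous_id.rpow_const fun _ => Or.inr (by linarith)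
          have h0 := hc'.tendsto 0
          rw [Real.zero_rpow (by linarith)] at h0
          exact h0.mono_left nhdsWithin_le_nhds
        have hprod := hpow.smul (htend y)
        have e0 : (0 : ℝ) • fderiv ℝ h 0 = 0 := by ext v; simp
        rw [e0] at hprod
        have hev : (fun t : ℝ => t ^ (1 - β) • fderiv ℝ h (t • y)) =ᶠ[𝓝[>] 0]
            fun _ => fderiv ℝ h y := by
          filter_upwards [self_mem_nhdsWithin] with t ht
          have ht' : 0 < t := ht
          rw [h1 t y ht', smul_smul, ← Real.rpow_add ht']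
          have : 1 - β + (β - 1) = 0 := by ring
          rw [this, Real.rpow_zero, one_smul]
        exact tendsto_nhds_unique (tendsto_const_nhds) (hprod.congr' hev)
      rw [hz x, hz 0]
    · have hev : (fun t : ℝ => fderiv ℝ h (t • x)) =ᶠ[𝓝[>] 0] fun _ => fderiv ℝ h x := by
        filter_upwards [self_mem_nhdsWithin] with t ht
        have ht' : 0 < t := ht
        rw [h1 t x ht', heq, sub_self, Real.rpow_zero, one_smul]
      exact tendsto_nhds_unique tendsto_const_nhds ((htend x).congr' hev)
  · intro hβ
    have e := h1 2 0 two_pos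
    rw [smul_zero] at e
    have h2 : (1 : ℝ) < 2 ^ (β - 1) :=
      Real.one_lt_rpow one_lt_two (by linarith)
    apply ContinuousLinearMap.ext
    intro v
    have e' : fderiv ℝ h 0 v = (2 : ℝ) ^ (β - 1) • fderiv ℝ h 0 v := by
      conv_lhs => rw [e]
      simp
    have h3 : ((2 : ℝ) ^ (β - 1) - 1) • fderiv ℝ h 0 v = 0 := by
      rw [sub_smul, ← e', one_smul, sub_self]
    rcases smul_eq_zero.mp h3 with h4 | h4
    · linarith
    · rw [h4]; simp

end Pool.Agent.H230.PH.A
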